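import Pool.Agent.helper36.NF.SpecB

/-!
# No formula for a divisor of a Fermat number, row FOQ: meaning of the sentence
-/

set_option autoImplicit false

open Polynomial Filter FirstOrder FirstOrder.Language

namespace Pool.Agent.NoFormula

theorem FOQ_add {α : Type} (v : α → ℤ) (x y : Lx.Term α) :
    (tAdd x y).realize v = x.realize v + y.realize v := rfl

theorem FOQ_mul {α : Type} (v : α → ℤ) (x y : Lx.Term α) :
    (tMul x y).realize v = x.realize v * y.realize v := rfl

theorem FOQ_pow {α : Type} (v : α → ℤ) (x : Lx.Term α) :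
    (tPow x).realize v = 2 ^ (x.realize v).toNat := rfl

theorem FOQ_one {α : Type} (v : α → ℤ) : (tOne : Lx.Term α).realize v = 1 := rfl

theorem FOQ_num (N : ℕ) {α : Type} (v : α → ℤ) : (tNum N : Lx.Term α).realize v = (N : ℤ) := by
  induction N with
  | zero => rfl
  | succ n ih =>
    show (tAdd (tNum n) tOne : Lx.Term α).realize v = ((n + 1 : ℕ) : ℤ)
    rw [FOQ_add, ih, FOQ_one]
    push_cast
    rfl

theorem FOQ_lt {α : Type} {n : ℕ} (v : α → ℤ) (xs : Fin n → ℤ) (x y : Lx.Term (α ⊕ Fin n)) :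
    (fLt x y).Realize v xs ↔ x.realize (Sum.elim v xs) < y.realize (Sum.elim v xs) := Iff.rfl

theorem FOQ_main (N : ℕ) : ℤ ⊨ compositeFrom N ↔ ∀ m : ℤ, (N : ℤ) ≤ m → ∃ x y : ℤ, 1 < x ∧ 1 < y ∧
    x * y = 2 ^ ((2 : ℤ) ^ m.toNat).toNat + 1 := by
  unfold compositeFrom Sentence.Realize Formula.Realize
  rw [BoundedFormula.realize_all]
  refine forall_congr' fun m => ?_
  rw [BoundedFormula.realize_imp, BoundedFormula.realize_not, FOQ_lt, FOQ_num]
  change (¬ (m < (N : ℤ)) → _) ↔ _
  rw [not_lt]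
  refine imp_congr_right fun _ => ?_
  rw [BoundedFormula.realize_ex]
  refine exists_congr fun x => ?_
  rw [BoundedFormula.realize_ex]
  refine exists_congr fun y => ?_
  rw [BoundedFormula.realize_inf, BoundedFormula.realize_inf, FOQ_lt, FOQ_lt,
    BoundedFormula.realize_bdEqual, FOQ_mul, FOQ_add, FOQ_pow, FOQ_pow, FOQ_one]
  exact and_assoc

theorem FOQ_pw (m : ℕ) : ((2 : ℤ) ^ m).toNat = 2 ^ m := by
  have : ((2 : ℤ) ^ m) = ((2 ^ m : ℕ) : ℤ) := by push_cast; rfl
  rw [this, Int.toNat_natCast]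

theorem FOQ : FOQ_stmt := by
  refine ⟨FOQ_main, ?_⟩
  rw [FOQ_main]
  constructor
  · intro h m hm
    by_contra hlt
    have h5 : ((5 : ℕ) : ℤ) ≤ (m : ℤ) := by
      exact_mod_cast (by omega : 5 ≤ m)
    obtain ⟨x, y, hx, hy, hxy⟩ := h (m : ℤ) h5
    rw [Int.toNat_natCast, FOQ_pw] at hxy
    have hF : ((Nat.fermatNumber m : ℕ) : ℤ) = x * y := by
      rw [hxy, Nat.fermatNumber]
      push_cast
      rfl
    have hx0 : 0 ≤ x := by omega
    have hy0 : 0 ≤ y := by omega
    lift x to ℕ using hx0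
    lift y to ℕ using hy0
    have hF2 : Nat.fermatNumber m = x * y := by exact_mod_cast hF
    rw [hF2] at hm
    have hx1 : 1 < x := by exact_mod_cast hx
    have hy1 : 1 < y := by exact_mod_cast hy
    exact Nat.not_prime_mul (by omega) (by omega) hm
  · intro h m hm
    have hm0 : 0 ≤ m := by
      have : ((5 : ℕ) : ℤ) = 5 := rfl
      omega
    lift m to ℕ using hm0
    have hm5 : 5 ≤ m := by exact_mod_cast hm
    have hnp : ¬ Nat.Prime (Nat.fermatNumber m) := fun hp => by
      have := h m hp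
      omega
    have h2 : 2 ≤ Nat.fermatNumber m := by
      have := Nat.three_le_fermatNumber m
      omega
    obtain ⟨x, hxd, hx2, hxlt⟩ := Nat.exists_dvd_of_not_prime2 h2 hnp
    obtain ⟨y, hy⟩ := hxd
    refine ⟨(x : ℤ), (y : ℤ), by exact_mod_cast (by omega : 1 < x), ?_, ?_⟩
    · have hy1 : 1 < y := by
        by_contra hc
        have hc' : y ≤ 1 := by omega
        have : x * y ≤ x * 1 := Nat.mul_le_mul_left x hc'
        rw [← hy] at this
        omega
      exact_mod_cast hy1
    · rw [Int.toNat_natCast, FOQ_pw]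
      have hF : ((Nat.fermatNumber m : ℕ) : ℤ) = (x : ℤ) * (y : ℤ) := by
        rw [hy]
        push_cast
        rfl
      rw [← hF, Nat.fermatNumber]
      push_cast
      rfl

end Pool.Agent.NoFormula
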